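import Pool.Agent.H948.HS.Stm

/-!
# Typical walks have many cone times
-/

set_option autoImplicit false

namespace Pool.Agent.H307.HS

open Finset
open Pool.Agent.H948.HS

/-- cardinality of a bounded set of natural numbers -/
theorem ncard_filter (n : ℕ) (p : ℕ → Prop) [DecidablePred p] :
    {j : ℕ | j < n ∧ p j}.ncard = ((range n).filter p).card := by
  have h : {j : ℕ | j < n ∧ p j} = (((range n).filter p : Finset ℕ) : Set ℕ) := by
    ext j
    simp
  rw [h, Set.ncard_coe_finset]

/-- pigeonhole over the residues -/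
theorem pigeon (M K : ℕ) (hM : 1 ≤ M) (p : ℕ → Prop) [DecidablePred p]
    (h : (((range (K * M)).filter p).card : ℝ) ≤ K * M / 16) :
    ∃ s < M, (((range K).filter (fun k => p (k * M + s))).card : ℝ) ≤ K / 16 := by
  have h1 : ∀ j ∈ (range (K * M)).filter p, j % M ∈ range M := fun j _ => mem_range.2 (Nat.mod_lt _ hM)
  have h2 := Finset.card_eq_sum_card_fiberwise h1
  have h3 : ∀ s ∈ range M, ((range K).filter (fun k => p (k * M + s))).card ≤
      (((range (K * M)).filter p).filter (fun j => j % M = s)).card := by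
    intro s hs
    rw [mem_range] at hs
    refine Finset.card_le_card_of_injOn (fun k => k * M + s) (fun k hk => ?_) (fun a _ b _ hab => ?_)
    · rw [mem_coe, mem_filter, mem_range] at hk
      rw [mem_coe, mem_filter, mem_filter, mem_range]
      refine ⟨⟨?_, hk.2⟩, ?_⟩
      · have : (k + 1) * M ≤ K * M := Nat.mul_le_mul_right M hk.1
        rw [Nat.add_mul, one_mul] at this
        show k * M + s < K * M
        omega
      · show (k * M + s) % M = s
        rw [Nat.add_comm, Nat.add_mul_mod_self_right, Nat.mod_eq_of_lt hs]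
    · simp only at hab
      exact Nat.eq_of_mul_eq_mul_right hM (by omega)
  have h4 : ∑ s ∈ range M, (((range K).filter (fun k => p (k * M + s))).card : ℝ) ≤
      ∑ s ∈ range M, ((K : ℝ) / 16) := by
    have h5 : (∑ s ∈ range M, ((range K).filter (fun k => p (k * M + s))).card) ≤
        ((range (K * M)).filter p).card := by
      rw [h2]
      exact Finset.sum_le_sum h3
    have h6 : ((∑ s ∈ range M, ((range K).filter (fun k => p (k * M + s))).card : ℕ) : ℝ) ≤
        (((range (K * M)).filter p).card : ℝ) := by exact_mod_cast h5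
    push_cast at h6
    refine h6.trans (h.trans (le_of_eq ?_))
    rw [Finset.sum_const, card_range, nsmul_eq_mul]
    ring
  obtain ⟨s, hs, h7⟩ := Finset.exists_le_of_sum_le ⟨0, mem_range.2 hM⟩ h4
  exact ⟨s, mem_range.1 hs, h7⟩

theorem s_typ (hc : S_CONE) : S_TYP := by
  classical
  intro m v ζ l M K u hv hv1 hζ hl hM hK hbad hbad2
  have h1 := hc m v l hv hv1 hl u (K * M)
  have h2 : (({j : ℕ | j < K * M ∧ ¬ Cone v (2 * l) u (K * M * l) (j * l)}.ncard : ℕ) : ℝ) ≤ K * M / 16 := by
    refine h1.trans ?_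
    have h3 : 16 / v * (({i : ℕ | i < K * M ∧ bad v (v / 4) l u i}.ncard : ℕ) : ℝ) ≤
        16 / v * (v / 256 * ((K * M : ℕ) : ℝ)) := mul_le_mul_of_nonneg_left hbad (by positivity)
    refine h3.trans (le_of_eq ?_)
    push_cast
    field_simp
    ring
  rw [ncard_filter] at h2
  obtain ⟨s, hs, h3⟩ := pigeon M K hM _ h2
  have h4 := hbad2 s hs
  rw [ncard_filter] at h4
  obtain ⟨C, hC⟩ : ∃ C : Finset ℕ, C = (range K).filter (fun k => Cone v (2 * l) u (K * M * l) ((k * M + s) * l)) :=
    ⟨_, rfl⟩
  obtain ⟨G, hG⟩ : ∃ G : Finset ℕ, G = (range (K - 1)).filter (fun k => k ∈ C ∧ k + 1 ∈ C ∧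
      ¬ bad v (ζ / 4) (M * l) (shift (s * l) u) k) := ⟨_, rfl⟩
  have hK1 : ((K - 1 : ℕ) : ℝ) = K - 1 := by
    rw [Nat.cast_sub (by omega)]; simp
  have hKr : (64 : ℝ) ≤ K := by exact_mod_cast hK
  have memC : ∀ k, k ∈ C ↔ k < K ∧ Cone v (2 * l) u (K * M * l) ((k * M + s) * l) := by
    intro k; rw [hC, mem_filter, mem_range]
  -- the complement of `C`
  have hcompl : (range K).filter (fun k => ¬ Cone v (2 * l) u (K * M * l) ((k * M + s) * l)) = range K \ C := by
    ext k
    rw [mem_filter, mem_sdiff, memC, mem_range]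
    tauto
  rw [hcompl] at h3
  refine ⟨s, hs, C, G, ?_, ?_, ?_, ?_⟩
  · by_contra hne
    rw [not_nonempty_iff_eq_empty] at hne
    rw [hne, sdiff_empty, card_range] at h3
    linarith
  · -- counting
    have h5 : range (K - 1) ⊆ G ∪ ((range K \ C) ∪ ((range K \ C).image (fun k => k - 1)) ∪
        (range (K - 1)).filter (fun i => bad v (ζ / 4) (M * l) (shift (s * l) u) i)) := by
      intro k hk
      rw [mem_range] at hk
      by_cases hb : bad v (ζ / 4) (M * l) (shift (s * l) u) k
      · exact mem_union_right _ (mem_union_right _ (mem_filter.2 ⟨mem_range.2 hk, hb⟩))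
      by_cases h6 : k ∈ C
      · by_cases h7 : k + 1 ∈ C
        · refine mem_union_left _ ?_
          rw [hG, mem_filter, mem_range]
          exact ⟨hk, h6, h7, hb⟩
        · refine mem_union_right _ (mem_union_left _ (mem_union_right _ ?_))
          exact mem_image.2 ⟨k + 1, mem_sdiff.2 ⟨mem_range.2 (by omega), h7⟩, rfl⟩
      · exact mem_union_right _ (mem_union_left _ (mem_union_left _
          (mem_sdiff.2 ⟨mem_range.2 (by omega), h6⟩)))
    have h6 := (card_le_card h5).trans ((card_union_le _ _).trans (Nat.add_le_add_left ((card_union_le _ _).trans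
      (Nat.add_le_add_right ((card_union_le _ _).trans (Nat.add_le_add_left card_image_le _)) _)) _))
    rw [card_range] at h6
    have h7 : ((K - 1 : ℕ) : ℝ) ≤ (G.card : ℝ) + (((range K \ C).card : ℝ) + ((range K \ C).card : ℝ) +
        (((range (K - 1)).filter (fun i => bad v (ζ / 4) (M * l) (shift (s * l) u) i)).card : ℝ)) := by
      exact_mod_cast h6
    rw [hK1] at h7 h4
    have h8 : (K : ℝ) ≤ 2 * G.card := by linarith
    exact_mod_cast h8
  · intro k hk
    rw [memC] at hk
    rw [← mul_assoc]
    exact hk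
  · intro k hk
    rw [hG, mem_filter] at hk
    obtain ⟨-, h5, h6, h7⟩ := hk
    refine ⟨h5, h6, ?_⟩
    unfold bad at h7
    rw [not_lt, S_shift] at h7
    have e1 : s * l + k * (M * l) = (k * M + s) * l := by ring
    have e2 : s * l + (k + 1) * (M * l) = ((k + 1) * M + s) * l := by ring
    rw [e1, e2] at h7
    exact h7

end Pool.Agent.H307.HS
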